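import Pool.Agent.Helper158.FCD.Defs

/-! Primitive recursiveness of the node-free parts of the machine. -/

set_option autoImplicit false

namespace Pool.Agent.Helper923.FCD

open Pool.Agent.Helper158.FCD

section gen

variable {σ β : Type*} [Primcodable σ] [Primcodable β]

theorem pr_forall_mem {L : σ → List β} {R : σ → β → Prop} (hL : Primrec L)
    (hR : PrimrecPred (fun p : σ × β => R p.1 p.2)) : PrimrecPred (fun s => ∀ x ∈ L s, R s x) := by
  have h1 : PrimrecRel (fun (b : β) (s : σ) => R s b) :=
    hR.comp (Primrec.pair Primrec.snd Primrec.fst)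
  exact (h1.forall_mem_list).comp hL Primrec.id

theorem pr_exists_mem {L : σ → List β} {R : σ → β → Prop} (hL : Primrec L)
    (hR : PrimrecPred (fun p : σ × β => R p.1 p.2)) : PrimrecPred (fun s => ∃ x ∈ L s, R s x) := by
  have h1 : PrimrecRel (fun (b : β) (s : σ) => R s b) :=
    hR.comp (Primrec.pair Primrec.snd Primrec.fst)
  exact (h1.exists_mem_list).comp hL Primrec.id

/-- `List.all` with a parameter -/
theorem pr_all {L : σ → List β} {f : σ → β → Bool} (hL : Primrec L)
    (hf : Primrec₂ f) : Primrec (fun s => (L s).all (f s)) := by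
  classical
  have h1 : PrimrecPred (fun s => ∀ x ∈ L s, f s x = true) :=
    pr_forall_mem (R := fun s x => f s x = true) hL (Primrec.eq.comp hf (Primrec.const true))
  refine (h1.decide).of_eq ?_
  intro s
  by_cases h : ∀ x ∈ L s, f s x = true
  · rw [decide_eq_true h]
    exact (List.all_eq_true.2 h).symm
  · rw [decide_eq_false h]
    symm
    rw [Bool.eq_false_iff]
    intro h2
    exact h (List.all_eq_true.1 h2)

/-- `List.any` with a parameter -/
theorem pr_any {L : σ → List β} {f : σ → β → Bool} (hL : Primrec L)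
    (hf : Primrec₂ f) : Primrec (fun s => (L s).any (f s)) := by
  classical
  have h1 : PrimrecPred (fun s => ∃ x ∈ L s, f s x = true) :=
    pr_exists_mem (R := fun s x => f s x = true) hL (Primrec.eq.comp hf (Primrec.const true))
  refine (h1.decide).of_eq ?_
  intro s
  by_cases h : ∃ x ∈ L s, f s x = true
  · rw [decide_eq_true h]
    exact (List.any_eq_true.2 h).symm
  · rw [decide_eq_false h]
    symm
    rw [Bool.eq_false_iff]
    intro h2
    exact h (List.any_eq_true.1 h2)

/-- equality test -/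
theorem pr_beqE [DecidableEq β] {f g : σ → β} (hf : Primrec f) (hg : Primrec g) :
    Primrec (fun s => decide (f s = g s)) := (Primrec.eq.comp hf hg : PrimrecPred _).decide

theorem pr_and {f g : σ → Bool} (hf : Primrec f) (hg : Primrec g) :
    Primrec (fun s => f s && g s) := Primrec.and.comp hf hg

theorem pr_or {f g : σ → Bool} (hf : Primrec f) (hg : Primrec g) :
    Primrec (fun s => f s || g s) := Primrec.or.comp hf hg

theorem pr_not {f : σ → Bool} (hf : Primrec f) : Primrec (fun s => !f s) := Primrec.not.comp hf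

theorem pr_xor {f g : σ → Bool} (hf : Primrec f) (hg : Primrec g) :
    Primrec (fun s => xor (f s) (g s)) := by
  have h : Primrec₂ (fun a b : Bool => xor a b) := Primrec.dom_bool₂ _
  exact h.comp hf hg

theorem pr_beqB {f g : σ → Bool} (hf : Primrec f) (hg : Primrec g) :
    Primrec (fun s => f s == g s) := by
  have h : Primrec₂ (fun a b : Bool => a == b) := Primrec.dom_bool₂ _
  exact h.comp hf hg

end gen

/-! ### paths -/

/-- being a final segment is primitive recursive -/
theorem prim_suffix : PrimrecRel (fun p q : Path => p <:+ q) := by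
  have h : PrimrecPred (fun x : Path × Path => x.1 = List.drop (x.2.length - x.1.length) x.2) := by
    refine Primrec.eq.comp Primrec.fst ?_
    exact Primrec.list_drop.comp
      (Primrec.nat_sub.comp (Primrec.list_length.comp Primrec.snd)
        (Primrec.list_length.comp Primrec.fst)) Primrec.snd
  exact h.of_eq (fun x => List.suffix_iff_eq_drop.symm)

theorem prim_suffixD {σ : Type*} [Primcodable σ] {f g : σ → Path} (hf : Primrec f)
    (hg : Primrec g) : PrimrecPred (fun s => f s <:+ g s) :=
  prim_suffix.comp hf hg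

theorem prim_consP {σ : Type*} [Primcodable σ] {f : σ → Path} (o : Fin 4) (hf : Primrec f) :
    Primrec (fun s => o :: f s) := Primrec.list_cons.comp (Primrec.const o) hf

theorem prim_RelP {σ : Type*} [Primcodable σ] {f g : σ → Path} (hf : Primrec f)
    (hg : Primrec g) : PrimrecPred (fun s => Rel (f s) (g s)) := by
  have h := (prim_suffixD (prim_consP 0 hf) hg).or
    ((prim_suffixD (prim_consP 1 hf) hg).or (prim_suffixD (prim_consP 2 hf) hg))
  exact h.of_eq (fun s => Iff.rfl)

/-- the relation `Rel` -/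
theorem prim_Rel : Primrec (fun x : Path × Path => decide (Rel x.1 x.2)) :=
  (prim_RelP Primrec.fst Primrec.snd).decide

theorem prim_fin_lt {σ : Type*} [Primcodable σ] {o : σ → Fin 4} (k : Fin 4) (ho : Primrec o) :
    PrimrecPred (fun s => o s < k) := by
  have h : PrimrecPred (fun s => ((o s : Fin 4) : ℕ) < (k : ℕ)) :=
    Primrec.nat_lt.comp (Primrec.fin_val.comp ho) (Primrec.const _)
  exact h.of_eq (fun s => Iff.rfl)

theorem prim_KillP {σ : Type*} [Primcodable σ] {o : σ → Fin 4} {f g : σ → Path} (ho : Primrec o)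
    (hf : Primrec f) (hg : Primrec g) : PrimrecPred (fun s => Kill (o s) (f s) (g s)) := by
  have h := ((prim_fin_lt 1 ho).and (prim_suffixD (prim_consP 1 hf) hg)).or
    (((prim_fin_lt 2 ho).and (prim_suffixD (prim_consP 2 hf) hg)).or
      ((prim_fin_lt 3 ho).and (prim_suffixD (prim_consP 3 hf) hg)))
  exact h.of_eq (fun s => Iff.rfl)

/-- the relation `Kill` -/
theorem prim_Kill : Primrec (fun x : Fin 4 × Path × Path => decide (Kill x.1 x.2.1 x.2.2)) :=
  (prim_KillP Primrec.fst (Primrec.fst.comp Primrec.snd) (Primrec.snd.comp Primrec.snd)).decide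

/-! ### the opponents -/

theorem prim_ofNatCode : Primrec (fun j : ℕ => Denumerable.ofNat Nat.Partrec.Code j) :=
  Primrec.ofNat _

theorem prim_evC {σ : Type*} [Primcodable σ] {j t x : σ → ℕ} (hj : Primrec j) (ht : Primrec t)
    (hx : Primrec x) : Primrec (fun a => Nat.Partrec.Code.evaln (t a)
      (Denumerable.ofNat Nat.Partrec.Code (j a)) (x a)) :=
  Nat.Partrec.Code.primrec_evaln.comp
    (Primrec.pair (Primrec.pair ht (prim_ofNatCode.comp hj)) hx)

theorem prim_evP {σ : Type*} [Primcodable σ] {j t s c : σ → ℕ} (hj : Primrec j) (ht : Primrec t)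
    (hs : Primrec s) (hc : Primrec c) : Primrec (fun a => ev (j a) (t a) (s a) (c a)) :=
  prim_evC hj ht (Primrec₂.natPair.comp hs hc)

/-- the function `ev` -/
theorem prim_ev : Primrec (fun x : ℕ × ℕ × ℕ × ℕ => ev x.1 x.2.1 x.2.2.1 x.2.2.2) :=
  prim_evP Primrec.fst (Primrec.fst.comp Primrec.snd)
    (Primrec.fst.comp (Primrec.snd.comp Primrec.snd))
    (Primrec.snd.comp (Primrec.snd.comp Primrec.snd))

theorem prim_bvP {σ : Type*} [Primcodable σ] {j t s c : σ → ℕ} (hj : Primrec j) (ht : Primrec t)
    (hs : Primrec s) (hc : Primrec c) : Primrec (fun a => bv (j a) (t a) (s a) (c a)) :=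
  pr_beqE (prim_evP hj ht hs hc) (Primrec.const (some 1))

/-- the function `bv` -/
theorem prim_bv : Primrec (fun x : ℕ × ℕ × ℕ × ℕ => bv x.1 x.2.1 x.2.2.1 x.2.2.2) :=
  prim_bvP Primrec.fst (Primrec.fst.comp Primrec.snd)
    (Primrec.fst.comp (Primrec.snd.comp Primrec.snd))
    (Primrec.snd.comp (Primrec.snd.comp Primrec.snd))

theorem prim_PhiP {σ : Type*} [Primcodable σ] {j t c : σ → ℕ} (hj : Primrec j) (ht : Primrec t)
    (hc : Primrec c) : PrimrecPred (fun a => Phi (j a) (t a) (c a)) := by
  have h : PrimrecPred (fun a => Nat.Partrec.Code.evaln (t a)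
      (Denumerable.ofNat Nat.Partrec.Code (j a)) (c a) = some 0) :=
    Primrec.eq.comp (prim_evC hj ht hc) (Primrec.const (some 0))
  exact h.of_eq (fun a => Iff.rfl)

/-- the predicate `Phi` -/
theorem prim_Phi : Primrec (fun x : ℕ × ℕ × ℕ => decide (Phi x.1 x.2.1 x.2.2)) :=
  (prim_PhiP Primrec.fst (Primrec.fst.comp Primrec.snd) (Primrec.snd.comp Primrec.snd)).decide

theorem prim_parP {σ : Type*} [Primcodable σ] {l : σ → List ℕ} {c : σ → ℕ} (hl : Primrec l)
    (hc : Primrec c) : Primrec (fun a => par (l a) (c a)) := by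
  unfold par
  have h : Primrec₂ (fun (a : σ) (p : ℕ × Bool) => xor (decide (p.1 = c a)) p.2) := by
    refine pr_xor ?_ (Primrec.snd.comp Primrec.snd)
    exact pr_beqE (Primrec.fst.comp Primrec.snd) (hc.comp Primrec.fst)
  exact Primrec.list_foldr hl (Primrec.const false) h

theorem prim_isSome {σ β : Type*} [Primcodable σ] [Primcodable β] {f : σ → Option β}
    (hf : Primrec f) : Primrec (fun s => (f s).isSome) := Primrec.option_isSome.comp hf

theorem prim_le {σ : Type*} [Primcodable σ] {f g : σ → ℕ} (hf : Primrec f) (hg : Primrec g) :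
    Primrec (fun s => decide (f s ≤ g s)) := (Primrec.nat_le.comp hf hg : PrimrecPred _).decide

/-- the answer function -/
theorem prim_ansfP {σ : Type*} [Primcodable σ] {j t s0 s1 : σ → ℕ} {r K : σ → List ℕ}
    (hj : Primrec j) (ht : Primrec t) (h0 : Primrec s0) (h1 : Primrec s1) (hr : Primrec r)
    (hK : Primrec K) : Primrec (fun a => ansf (j a) (t a) (s0 a) (s1 a) (r a) (K a)) := by
  unfold ansf
  have f {τ : Type} [Primcodable τ] {g : σ → τ} (hg : Primrec g) :
      Primrec (fun x : σ × ℕ => g x.1) := hg.comp Primrec.fst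
  have hsnd : Primrec (fun x : σ × ℕ => x.2) := Primrec.snd
  have hA : Primrec (fun a => (K a).all (fun c => (ev (j a) (t a) (s1 a) c).isSome &&
      (decide (s0 a ≤ c) || (ev (j a) (t a) (s0 a) c).isSome))) := by
    refine pr_all hK ?_
    exact pr_and (prim_isSome (prim_evP (f hj) (f ht) (f h1) hsnd))
      (pr_or (prim_le (f h0) hsnd) (prim_isSome (prim_evP (f hj) (f ht) (f h0) hsnd)))
  have hB : Primrec (fun a => (K a).all (fun c => decide (s0 a ≤ c) ||
      (bv (j a) (t a) (s1 a) c == bv (j a) (t a) (s0 a) c))) := by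
    refine pr_all hK ?_
    exact pr_or (prim_le (f h0) hsnd) (pr_beqB (prim_bvP (f hj) (f ht) (f h1) hsnd)
      (prim_bvP (f hj) (f ht) (f h0) hsnd))
  have hC : Primrec (fun a => (K a).all (fun c => decide (s0 a ≤ c) ||
      (bv (j a) (t a) (s1 a) c == xor (bv (j a) (t a) (s0 a) c) (par (r a) c)))) := by
    refine pr_all hK ?_
    exact pr_or (prim_le (f h0) hsnd) (pr_beqB (prim_bvP (f hj) (f ht) (f h1) hsnd)
      (pr_xor (prim_bvP (f hj) (f ht) (f h0) hsnd) (prim_parP (f hr) hsnd)))
  refine Primrec.ite (Primrec.eq.comp hA (Primrec.const true)) ?_ (Primrec.const none)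
  refine Primrec.ite (Primrec.eq.comp hB (Primrec.const true)) (Primrec.const (some false)) ?_
  exact Primrec.ite (Primrec.eq.comp hC (Primrec.const true)) (Primrec.const (some true))
    (Primrec.const none)

/-- the answer function, packed -/
theorem prim_ansf : Primrec (fun x : ℕ × ℕ × ℕ × ℕ × List ℕ × List ℕ =>
    ansf x.1 x.2.1 x.2.2.1 x.2.2.2.1 x.2.2.2.2.1 x.2.2.2.2.2) := by
  have s1 : Primrec (fun x : ℕ × ℕ × ℕ × ℕ × List ℕ × List ℕ => x.2) := Primrec.snd
  have s2 : Primrec (fun x : ℕ × ℕ × ℕ × ℕ × List ℕ × List ℕ => x.2.2) := Primrec.snd.comp s1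
  have s3 : Primrec (fun x : ℕ × ℕ × ℕ × ℕ × List ℕ × List ℕ => x.2.2.2) := Primrec.snd.comp s2
  have s4 : Primrec (fun x : ℕ × ℕ × ℕ × ℕ × List ℕ × List ℕ => x.2.2.2.2) := Primrec.snd.comp s3
  exact prim_ansfP Primrec.fst (Primrec.fst.comp s1) (Primrec.fst.comp s2) (Primrec.fst.comp s3)
    (Primrec.fst.comp s4) (Primrec.snd.comp s4)

end Pool.Agent.Helper923.FCD
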